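import Pool.Agent.Lib.DN.B.Spec

/-!
# Theorem DN, Part B, module B13: injectivity
-/

set_option autoImplicit false

open scoped Pointwise Topology
open Filter

noncomputable section

namespace Pool.Agent.DN

open Pool.Agent.MuZ Pool.Agent.FW NumberField IsDedekindDomain
open Pool.Agent.DI (io ofC io_inj exists_io io_ofC ofC_io VP MP UP TP ex)
open Pool.Agent.DKB (inL wp wd zt kz KK IsRp IsHf)

/-- `Lam a ⊆ Lam a'` implies `a' ≤ a`. -/
private theorem B13_le {n t : ℕ} [SqN n t] {a a' : Ideal (OO n t)} (ha : a ≠ ⊥)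
    (h : ∀ z : ℂ, z ∈ Lam a → z ∈ Lam a') : a' ≤ a := by
  obtain ⟨⟨g, hg, hg'⟩, h2, -⟩ := aL3 n t a ⊤ ha top_ne_bot
  intro v hv
  have h3 := (h2 g hg hg').1 v
  rw [← h3]
  rw [Ideal.mul_top] at hg
  obtain ⟨u, hu⟩ := h g hg v hv
  rw [lam_top]
  exact ⟨u, hu⟩

/-- `Lam` is injective. -/
private theorem B13_inj {n t : ℕ} [SqN n t] {a a' : Ideal (OO n t)} (ha : a ≠ ⊥) (ha' : a' ≠ ⊥)
    (h : ∀ z : ℂ, z ∈ Lam a ↔ z ∈ Lam a') : a = a' :=
  le_antisymm (B13_le ha' fun z hz => (h z).2 hz) (B13_le ha fun z hz => (h z).1 hz)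

theorem sB13 (h1 : K_Cst) (h0 : K_Pt) : S_B13 := by
  intro n t _ b b' hG hG' hA hB
  have hb := hG.ne
  have hb' := hG'.ne
  obtain ⟨s0, -, hA3, -, -, -, -, hw3, hg2, hg3, hX, hW⟩ := h1 n t b hb hG.cop
  obtain ⟨s0', -, -, -, -, -, hw5', hw3', hg2', hg3', hX', hW'⟩ := h1 n t b' hb' hG'.cop
  obtain ⟨c, hc⟩ : ∃ c : ℂ, c = fr b / fr b' := ⟨_, rfl⟩
  have hc0 : c ≠ 0 := by
    rw [hc]
    exact div_ne_zero s0 s0'
  obtain ⟨M, hM⟩ := DKB.gScl.2.2 (LP b') c hc0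
  obtain ⟨-, -, -, hM2, hM3⟩ := DKB.gScl.1 (LP b') M c hc0 hM
  have hcs : c * fr b' = fr b := by
    rw [hc]
    exact div_mul_cancel₀ _ s0'
  have e2 : M.g₂ = (LP b).g₂ := by
    rw [hM2, hg2, hg2', ← hA, ← hB, ← hcs]
    ring
  have e3 : M.g₃ = (LP b).g₃ := by
    rw [hM3, hg3, hg3', ← hA, ← hB, ← hcs]
    ring
  have key : ∀ z : ℂ, z ∈ Lam b ↔ c * z ∈ Lam b' := fun z => by
    rw [← inL_LP hb, ← inL_LP hb', ← hM z]
    exact (DKB.gUni M (LP b) e2 e3 z).symm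
  obtain ⟨hs1, hs2, -⟩ := DKB.gScl.1 (LP b') (LP b) c hc0 (fun z => by
    rw [inL_LP hb, inL_LP hb']
    exact key z)
  have hXX : ∀ z : ℂ, XC b z = XC b' (c * z) := by
    intro z
    have h4 : wpC b z = c ^ 2 * wpC b' (c * z) := hs1 z
    rw [hX z, hX' (c * z), ← hA, ← hcs] at h4
    have h5 : (c * fr b') ^ 2 ≠ 0 := by
      rw [hcs]
      exact pow_ne_zero 2 s0
    apply mul_left_cancel₀ h5
    linear_combination h4
  have hWW : ∀ z : ℂ, WC b z = WC b' (c * z) := by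
    intro z
    have h4 : wdC b z = c ^ 3 * wdC b' (c * z) := hs2 z
    rw [hW z, hW' (c * z), ← hcs] at h4
    have h5 : (c * fr b') ^ 3 ≠ 0 := by
      rw [hcs]
      exact pow_ne_zero 3 s0
    apply mul_left_cancel₀ h5
    linear_combination h4
  have h1b : (1 : ℂ) ∈ Lam b := fun v _ => ⟨v, by rw [mul_one]⟩
  have hcb : c ∈ Lam b' := by
    have := (key 1).1 h1b
    rwa [mul_one] at this
  -- the points `1/3`, `1/5`
  have pn : ∀ (b₀ : Ideal (OO n t)), G15 b₀ → (1 / 3 : ℂ) ∉ Lam b₀ ∧ (1 / 5 : ℂ) ∉ Lam b₀ := by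
    intro b₀ hb₀
    have p := h0 n t b₀ hb₀.ne hb₀.cop
    constructor
    · intro h
      have h4 := (p 5).1 (by push_cast; rwa [show (5 : ℂ) / 15 = 1 / 3 by norm_num])
      omega
    · intro h
      have h4 := (p 3).1 (by push_cast; rwa [show (3 : ℂ) / 15 = 1 / 5 by norm_num])
      omega
  obtain ⟨n3, n5⟩ := pn b hG
  obtain ⟨n3', n5'⟩ := pn b' hG'
  have m3 : c * (1 / 3) ∉ Lam b' := fun h => n3 ((key _).2 h)
  have m5 : c * (1 / 5) ∉ Lam b' := fun h => n5 ((key _).2 h)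
  have inj : ∀ x y : ℂ, x ∉ Lam b' → y ∉ Lam b' → XC b' x = XC b' y → x - y ∈ Lam b' ∨ x + y ∈ Lam b' := by
    intro x y hx hy h
    have h4 : wp (LP b') x = wp (LP b') y := by
      have := hX' x
      rw [h, ← hX' y] at this
      exact this
    have h5 := ((DKB.gInj (LP b')).1 x y ((notL_LP hb').2 hx) ((notL_LP hb').2 hy)).1 h4
    rwa [inL_LP hb', inL_LP hb'] at h5
  have x0 : ∀ b₀ : Ideal (OO n t), XC b₀ (1 / 3) = 0 := fun b₀ => by
    unfold XC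
    rw [sub_self, zero_div]
  have x5 : ∀ b₀ : Ideal (OO n t), G15 b₀ → XC b₀ (1 / 5) = A3 b₀ := by
    intro b₀ hb₀
    obtain ⟨q1, -, -, -, -, -, q7, -⟩ := h1 n t b₀ hb₀.ne hb₀.cop
    unfold XC
    rw [q7, add_sub_cancel_left, mul_div_cancel_left₀ _ (pow_ne_zero 2 q1)]
  have d3 : c * (1 / 3) - 1 / 3 ∈ Lam b' := by
    rcases inj _ _ m3 n3' (by rw [← hXX, x0, x0]) with h | h
    · exact h
    · exfalso
      have h4 : WC b' (c * (1 / 3)) = -WC b' (1 / 3) := by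
        rw [← WC_neg]
        exact WC_congr hb' (by rwa [sub_neg_eq_add])
      rw [← hWW] at h4
      have h5 : A3 b = -A3 b' := h4
      rw [← hB] at h5
      apply hA3
      linear_combination h5 / 2
  have d5 : c * (1 / 5) - 1 / 5 ∈ Lam b' ∨ c * (1 / 5) + 1 / 5 ∈ Lam b' :=
    inj _ _ m5 n5' (by rw [← hXX, x5 b hG, x5 b' hG', hB])
  obtain ⟨α, hαb, hα0, hα1⟩ := (aO6 n t).2.2.2.2 15 b' (by norm_num) hb' hG'.cop
  obtain ⟨β, hβ⟩ := hcb α hαb
  have hβ0 : β ≠ 0 := by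
    rintro rfl
    rw [toC_zero] at hβ
    exact mul_ne_zero (toC_ne hα0) hc0 hβ
  have mem3 : (3 : OO n t) ∣ β - α := by
    obtain ⟨γ, hγ⟩ := d3 α hαb
    refine ⟨γ, toC_inj ?_⟩
    rw [toC_sub, toC_mul, toC_three, ← hβ, ← hγ]
    ring
  have mem5 : (5 : OO n t) ∣ β - α ∨ (5 : OO n t) ∣ β + α := by
    have t5 : toC (5 : OO n t) = 5 := by
      have := toC_nat (n := n) (t := t) 5
      push_cast at this
      exact this
    rcases d5 with h | h
    · left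
      obtain ⟨γ, hγ⟩ := h α hαb
      refine ⟨γ, toC_inj ?_⟩
      rw [toC_sub, toC_mul, t5, ← hβ, ← hγ]
      ring
    · right
      obtain ⟨γ, hγ⟩ := h α hαb
      refine ⟨γ, toC_inj ?_⟩
      rw [toC_add, toC_mul, t5, ← hβ, ← hγ]
      ring
  have a3 : ((3 : ℕ) : OO n t) ∣ (1 : OO n t) - α := by
    rw [← neg_sub, dvd_neg]
    exact dvd_trans ⟨((5 : ℕ) : OO n t), by norm_num⟩ hα1
  have a5 : ((5 : ℕ) : OO n t) ∣ (1 : OO n t) - α := by
    rw [← neg_sub, dvd_neg]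
    exact dvd_trans ⟨((3 : ℕ) : OO n t), by norm_num⟩ hα1
  have c3 : Cop α 3 := cop_congr a3 (cop_one 3)
  have c5 : Cop α 5 := cop_congr a5 (cop_one 5)
  have k3 : Cop β 3 := by
    refine cop_congr ?_ c3
    rw [← neg_sub, dvd_neg]
    exact_mod_cast mem3
  have k5 : Cop β 5 := by
    rcases mem5 with h | h
    · refine cop_congr ?_ c5
      rw [← neg_sub, dvd_neg]
      exact_mod_cast h
    · refine cop_congr (a := -α) ?_ (cop_neg c5)
      rw [← neg_add', dvd_neg, add_comm]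
      exact_mod_cast h
  have c15 : ∀ v : OO n t, Cop v 3 → Cop v 5 → Cop v 15 := by
    intro v h3 h5
    have h6 := IsCoprime.mul_right h3 h5
    unfold Cop
    norm_num at h6 ⊢
    exact h6
  refine ⟨α, β, hα0, hβ0, c15 α c3 c5, c15 β k3 k5, ?_, ?_, ?_⟩
  · refine B13_inj (mul_ne_zero (a := sp α) (b := b) (sp_ne hα0) hb)
      (mul_ne_zero (a := sp β) (b := b') (sp_ne hβ0) hb') fun z => ?_
    rw [lam_sp, lam_sp, key, ← hβ]
    have h5 : c * (toC α * z) = toC α * c * z := by ring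
    rw [h5]
  · rw [← neg_sub, dvd_neg]
    exact mem3
  · rcases mem5 with h | h
    · left
      rw [← neg_sub, dvd_neg]
      exact h
    · right
      rw [add_comm]
      exact h

end Pool.Agent.DN
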