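import Pool.Agent.Lib.DN.B.Spec

/-!
# Theorem DN, Part B, module B16: the divisor argument
-/

set_option autoImplicit false

open scoped Pointwise Topology
open Filter

noncomputable section

namespace Pool.Agent.DN

open Pool.Agent.MuZ Pool.Agent.FW NumberField IsDedekindDomain
open Pool.Agent.DI (io ofC io_inj exists_io io_ofC ofC_io VP MP UP TP ex)
open Pool.Agent.DKB (inL wp wd zt kz KK IsRp IsHf)

theorem sB16 (h3 : S_B14) : S_B16 := by
  intro n t _ l m b hl hm hb hm2 hlm R hR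
  have hlb : l * b ≠ ⊥ := mul_ne_zero hl hb
  have hmb : m * b ≠ ⊥ := mul_ne_zero hm hb
  have hmlb : m * (l * b) ≠ ⊥ := mul_ne_zero hm hlb
  obtain ⟨hS, cS⟩ := h3 n t m b hm hb hm2
  obtain ⟨hS', cS'⟩ := h3 n t m (l * b) hm hlb hm2
  have hcard : (hs m b).card = (hs m (l * b)).card := by omega
  have hml : m ⊔ l = ⊤ := by rw [sup_comm]; exact hlm
  have two : ∀ b' : Ideal (OO n t), b' ≠ ⊥ → ∀ u : ℂ, inL (LP (m * b')) u → inL (LP b') (u + u) →
      inL (LP b') u := by
    intro b' hb' u hu huu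
    rw [inL_LP (mul_ne_zero hm hb')] at hu
    rw [inL_LP hb'] at huu ⊢
    refine (aL5 n t m b' 2 hm hb' two_pos hm2).1 u ?_ hu
    push_cast
    rwa [two_mul]
  have hL4 := (aL4 n t b hb).2 m l hm hl hml
  obtain ⟨c, hc, H⟩ := DKB.gPrC (LP b) (LP (m * b)) (LP (l * b)) (LP (m * (l * b))) R (hs m b)
    (hs m (l * b)) (hR.rp hl hb) (hS.hf hm hb) (hS'.hf hm hlb) hcard
    (fun z hz => by
      rw [inL_LP hmb]
      exact lam_mono ((inL_LP hb).1 hz))
    (two b hb) (two (l * b) hlb)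
    (fun z hz hz' => by
      rw [inL_LP hmb] at hz
      rw [inL_LP hlb] at hz'
      rw [inL_LP hb]
      exact hL4.1 z hz hz')
    (fun z => by
      rw [inL_LP hmlb]
      constructor
      · intro hz
        rw [← mul_assoc] at hz
        obtain ⟨z', h4, z'', h5, h6⟩ := hL4.2 z hz
        exact ⟨z', z'', (inL_LP hmb).2 h4, (inL_LP hlb).2 h5, h6⟩
      · rintro ⟨x, x', h4, h5, h6⟩
        rw [inL_LP hmb] at h4
        rw [inL_LP hlb] at h5
        rw [h6]
        refine lam_add ?_ (lam_mono h5)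
        rw [mul_left_comm]
        exact lam_mono h4)
  refine ⟨c, hc, fun z hz => ?_⟩
  have hz' : ¬ inL (LP (m * (l * b))) z := by
    rw [notL_LP hmlb, mul_left_comm, ← mul_assoc]
    exact hz
  exact H z hz'

end Pool.Agent.DN
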