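import Pool.Agent.Lib.DN.B.Spec

/-!
# Theorem DN, Part B, module B2: the curve
-/

set_option autoImplicit false

open scoped Pointwise Topology
open Filter

noncomputable section

namespace Pool.Agent.DN

open Pool.Agent.MuZ Pool.Agent.FW NumberField IsDedekindDomain
open Pool.Agent.DI (io ofC io_inj exists_io io_ofC ofC_io VP MP UP TP ex)
open Pool.Agent.DKB (inL wp wd zt kz KK IsRp IsHf)

theorem sB2 (h1 : K_Cst) : S_B2 := by
  intro n t _ b hb z hz
  have hz' : ¬ inL (LP b) z := (notL_LP hb).2 hz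
  have h2 : HasDerivAt (wpC b) (wdC b z) z := DKB.hasDerivAt_wp hz'
  have h3 : HasDerivAt (wdC b) (w2C b z) z := (DKB.gExp (LP b)).2.1 z hz'
  have hsq : wdC b z ^ 2 = 4 * wpC b z ^ 3 - (LP b).g₂ * wpC b z - (LP b).g₃ := DKB.wd_sq hz'
  refine ⟨⟨hsq, DKB.analyticAt_wp hz', DKB.analyticAt_wd hz', h2, h3⟩, fun h15 => ?_⟩
  obtain ⟨hF, -, -, -, -, -, -, c8, c9, c10, hX, hW⟩ := h1 n t b hb h15
  refine ⟨?_, ?_, ?_⟩
  · rw [hX z, hW z, c9, c10] at hsq
    apply mul_left_cancel₀ (pow_ne_zero 6 hF)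
    linear_combination hsq
  · have h4 := (h2.sub_const (wpC b (1 / 3))).div_const (fr b ^ 2)
    have e : fr b * WC b z = wdC b z / fr b ^ 2 := by
      rw [hW z]
      field_simp
    rw [e]
    exact h4
  · have h4 := h3.div_const (fr b ^ 3)
    have e : fr b * (6 * XC b z ^ 2 + A1 b * (A1 b * XC b z + A3 b)) = w2C b z / fr b ^ 3 := by
      rw [eq_div_iff (pow_ne_zero 3 hF)]
      unfold w2C
      rw [hX z, c9]
      ring
    rw [e]
    exact h4

end Pool.Agent.DN
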