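import Pool.Agent.Lib.DN.B.Spec

/-!
# Theorem DN, Part B, module B3: the formulas of the Kummer line
-/

set_option autoImplicit false

open scoped Pointwise Topology
open Filter

noncomputable section

namespace Pool.Agent.DN

open Pool.Agent.MuZ Pool.Agent.FW NumberField IsDedekindDomain
open Pool.Agent.DI (io ofC io_inj exists_io io_ofC ofC_io VP MP UP TP ex)
open Pool.Agent.DKB (inL wp wd zt kz KK IsRp IsHf)

theorem sB3 (h1 : K_Cst) (h2 : G_Kum) : S_B3 := by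
  intro n t _ b hb
  obtain ⟨k1, k2⟩ := h2 (LP b)
  have hn : ∀ z : ℂ, z ∉ Lam b → ¬ inL (LP b) z := fun z hz => (notL_LP hb).2 hz
  refine ⟨fun z z' hz hz' hp hm => ?_, fun z hz => ?_⟩
  · obtain ⟨-, a1, a2, a3⟩ := k1 z z' (hn z hz) (hn z' hz') (hn _ hp) (hn _ hm)
    refine ⟨a1, a2, a3, fun h15 => ?_⟩
    rw [← wpC_eq] at a1 a2 a3
    rw [← wdC_eq] at a3
    obtain ⟨hF, -, -, -, -, -, -, c8, c9, c10, hX, hW⟩ := h1 n t b hb h15
    have hw1 : wdC b z ^ 2 = 4 * wpC b z ^ 3 - (LP b).g₂ * wpC b z - (LP b).g₃ := DKB.wd_sq (hn z hz)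
    rw [hX (z + z'), hX (z - z'), hX z, hX z', c9, c10] at a1
    rw [hX (z + z'), hX (z - z'), hX z, hX z', c9, c10] at a2
    rw [hX (z + z'), hX (z - z'), hX z, hX z', hW z, hW z'] at a3
    have f6 : fr b ^ 6 ≠ 0 := pow_ne_zero 6 hF
    have f8 : fr b ^ 8 ≠ 0 := pow_ne_zero 8 hF
    have e1 : (XC b (z + z') + XC b (z - z')) * (XC b z - XC b z') ^ 2 =
        2 * XC b z * XC b z' * (XC b z + XC b z') + A1 b ^ 2 * (XC b z * XC b z') +
          A1 b * A3 b * (XC b z + XC b z') + A3 b ^ 2 := by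
      apply mul_left_cancel₀ f6
      linear_combination a1
    refine ⟨e1, ?_, ?_⟩
    · apply mul_left_cancel₀ f8
      linear_combination a2 - fr b ^ 8 * A1 b ^ 2 / 12 * e1
    · apply mul_left_cancel₀ f6
      linear_combination a3
  · have hz' : ¬ inL (LP b) (z + z) := by
      rw [← two_mul]
      exact hn _ hz
    have a1 := k2 z hz'
    rw [← two_mul, ← wpC_eq, ← wdC_eq] at a1
    refine ⟨a1, fun h15 => ?_⟩
    obtain ⟨hF, -, -, -, -, -, -, c8, c9, c10, hX, hW⟩ := h1 n t b hb h15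
    have hz0 : z ∉ Lam b := fun h => hz (by rw [two_mul]; exact lam_add h h)
    have hw1 : wdC b z ^ 2 = 4 * wpC b z ^ 3 - (LP b).g₂ * wpC b z - (LP b).g₃ := DKB.wd_sq (hn z hz0)
    rw [hX z, c9, c10, hW z] at hw1
    rw [hX (2 * z), hX z, hW z, c9, c10] at a1
    have f8 : fr b ^ 8 ≠ 0 := pow_ne_zero 8 hF
    apply mul_left_cancel₀ f8
    linear_combination a1 - fr b ^ 2 * A1 b ^ 2 / 12 * hw1

end Pool.Agent.DN
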