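import Pool.Agent.Lib.DN.B.Spec

/-!
# Theorem DN, Part B, module B4: translation by the points of order two
-/

set_option autoImplicit false

open scoped Pointwise Topology
open Filter

noncomputable section

namespace Pool.Agent.DN

open Pool.Agent.MuZ Pool.Agent.FW NumberField IsDedekindDomain
open Pool.Agent.DI (io ofC io_inj exists_io io_ofC ofC_io VP MP UP TP ex)
open Pool.Agent.DKB (inL wp wd zt kz KK IsRp IsHf)

theorem sB4 (h1 : G_Two) : S_B4 := by
  intro n t _ b hb T T' hT2 hT hT2' hT' hTT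
  rw [two_mul] at hT2 hT2'
  obtain ⟨a1, a2, a3, a4, -⟩ := h1 (LP b) T T' ((inL_LP hb).2 hT2) ((notL_LP hb).2 hT)
    ((inL_LP hb).2 hT2') ((notL_LP hb).2 hT') ((notL_LP hb).2 hTT)
  exact ⟨a1, a2, fun z hz => a3 z ((notL_LP hb).2 hz),
    fun z hz hz' => a4 z ((notL_LP hb).2 hz) ((notL_LP hb).2 hz')⟩

theorem sB15 (h1 : G_Two) : S_B15 := by
  intro n t _ b hb T T' hT2 hT hT2' hT' hTT u z hu hz
  rw [two_mul] at hT2 hT2' hu hz
  rw [two_mul, two_mul]
  exact (h1 (LP b) T T' ((inL_LP hb).2 hT2) ((notL_LP hb).2 hT)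
    ((inL_LP hb).2 hT2') ((notL_LP hb).2 hT') ((notL_LP hb).2 hTT)).2.2.2.2 u z ((notL_LP hb).2 hu)
      ((notL_LP hb).2 hz)

end Pool.Agent.DN
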