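import Pool.Agent.Lib.DN.B.Spec

/-!
# Theorem DN, Part B, module B5: the isogeny (2)
-/

set_option autoImplicit false

open scoped Pointwise Topology
open Filter

noncomputable section

namespace Pool.Agent.DN

open Pool.Agent.MuZ Pool.Agent.FW NumberField IsDedekindDomain
open Pool.Agent.DI (io ofC io_inj exists_io io_ofC ofC_io VP MP UP TP ex)
open Pool.Agent.DKB (inL wp wd zt kz KK IsRp IsHf)

theorem sB5 (h1 : K_Cst) (h0 : K_Pt) (h7 : S_B7) : S_B5 := by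
  intro n t _ b hG
  have hb := hG.ne
  have p := h0 n t b hb hG.cop
  obtain ⟨hF, hfr, hA3, -, hd, hw2, hw5, hw3, hg2, hg3, hX, hW⟩ := h1 n t b hb hG.cop
  have h20 : (2 : OO n t) ≠ 0 := by
    intro h
    have h4 := congrArg (toC (n := n) (t := t)) h
    rw [toC_two, toC_zero] at h4
    norm_num at h4
  have hc2 : Cop (2 : OO n t) 15 := by
    have h4 := Nm_nat (n := n) (t := t) 2
    push_cast at h4
    unfold Cop
    rw [h4]
    norm_num
  have hab : sp (2 : OO n t) * b ≠ ⊥ := mul_ne_zero (a := sp (2 : OO n t)) (b := b) (sp_ne h20) hb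
  have hp15 : PrI (sp (2 : OO n t) * b) 15 :=
    ((aO6 n t).1 15 (sp 2) b).2 ⟨((aO6 n t).2.2.2.1 15 2 (by norm_num)).2 hc2, hG.cop⟩
  obtain ⟨hF', hfr', -⟩ := h1 n t (sp 2 * b) hab hp15
  obtain ⟨hs, hsg, -⟩ := (h7 n t b hb).1 2 h20
  simp only [toC_two] at hs hsg
  -- the points
  have m3 : (1 / 3 : ℂ) ∉ Lam b := by
    intro h
    have h4 := (p 5).1 (by push_cast; rwa [show (5 : ℂ) / 15 = 1 / 3 by norm_num])
    omega
  have m5 : (2 / 5 : ℂ) ∉ Lam b := by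
    intro h
    have h4 := (p 6).1 (by push_cast; rwa [show (6 : ℂ) / 15 = 2 / 5 by norm_num])
    omega
  have l1 : (1 : ℂ) ∈ Lam b := fun v _ => ⟨v, by rw [mul_one]⟩
  have hx : XC b (2 / 5) ≠ 0 := by
    intro h
    have h4 : wp (LP b) (2 / 5) = wp (LP b) (1 / 3) := by
      have := hX (2 / 5)
      rw [h, zero_add, mul_div_assoc', ← hw3] at this
      exact this
    rcases ((DKB.gInj (LP b)).1 _ _ ((notL_LP hb).2 m5) ((notL_LP hb).2 m3)).1 h4 with h5 | h5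
    · rw [inL_LP hb] at h5
      have h4 := (p 1).1 (by push_cast; rwa [show (1 : ℂ) / 15 = 2 / 5 - 1 / 3 by norm_num])
      omega
    · rw [inL_LP hb] at h5
      have h4 := (p 11).1 (by push_cast; rwa [show (11 : ℂ) / 15 = 2 / 5 + 1 / 3 by norm_num])
      omega
  have w3 : wpC (sp 2 * b) (1 / 3) = 4 * wpC b (1 / 3) := by
    rw [(hs _).1, wpC_congr' hb (u := 1 / 3)
      (Or.inr (by rwa [show (2 : ℂ) * (1 / 3) + 1 / 3 = 1 by norm_num]))]
    norm_num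
  have w5 : wpC (sp 2 * b) (1 / 5) = 4 * wpC b (2 / 5) := by
    rw [(hs _).1, show (2 : ℂ) * (1 / 5) = 2 / 5 by norm_num]
    norm_num
  have d3 : wdC (sp 2 * b) (1 / 3) = -8 * wdC b (1 / 3) := by
    rw [(hs _).2.1, wdC_congr hb (u := -(1 / 3)) (by rwa [show (2 : ℂ) * (1 / 3) - -(1 / 3) = 1 by norm_num]),
      wdC_neg]
    ring
  have hfr2 : fr (sp 2 * b) * XC b (2 / 5) = -2 * fr b * A3 b := by
    rw [hfr', w3, w5, d3, hd, hX (2 / 5), hw3]
    have e : 4 * (fr b ^ 2 * (XC b (2 / 5) + A1 b ^ 2 / 12)) - 4 * (fr b ^ 2 * A1 b ^ 2 / 12) =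
        4 * fr b ^ 2 * XC b (2 / 5) := by ring
    rw [e]
    field_simp
    ring
  have hf2 : fr (sp 2 * b) = -2 * fr b * A3 b / XC b (2 / 5) := by
    rw [eq_div_iff hx]
    exact hfr2
  have hXX : ∀ z : ℂ, XC (sp 2 * b) z * A3 b ^ 2 = XC b (2 / 5) ^ 2 * XC b (2 * z) := by
    intro z
    have e : XC (sp 2 * b) z = (wpC (sp 2 * b) z - wpC (sp 2 * b) (1 / 3)) / fr (sp 2 * b) ^ 2 := rfl
    rw [e, (hs z).1, w3, hX (2 * z), hw3, hf2]
    field_simp
    ring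
  have hWW : ∀ z : ℂ, WC (sp 2 * b) z * A3 b ^ 3 = -(XC b (2 / 5) ^ 3 * WC b (2 * z)) := by
    intro z
    have e : WC (sp 2 * b) z = wdC (sp 2 * b) z / fr (sp 2 * b) ^ 3 := rfl
    rw [e, (hs z).2.1, hW (2 * z), hf2]
    field_simp
  have hA3' : A3 (sp 2 * b) * A3 b ^ 2 = XC b (2 / 5) ^ 3 := by
    have h4 := hWW (1 / 3)
    have h5 : WC b (2 * (1 / 3)) = -A3 b := by
      rw [WC_congr hb (u := -(1 / 3)) (by rwa [show (2 : ℂ) * (1 / 3) - -(1 / 3) = 1 by norm_num]), WC_neg]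
      rfl
    rw [h5] at h4
    have h6 : A3 (sp 2 * b) * A3 b ^ 3 = XC b (2 / 5) ^ 3 * A3 b := by
      have h7 : A3 (sp 2 * b) = WC (sp 2 * b) (1 / 3) := rfl
      rw [h7, h4]
      ring
    apply mul_right_cancel₀ hA3
    linear_combination h6
  refine ⟨hx, hfr2, hXX, hWW, hA3', ?_⟩
  have e : A1 (sp 2 * b) = w2C (sp 2 * b) (1 / 3) / (wdC (sp 2 * b) (1 / 3) * fr (sp 2 * b)) := rfl
  have e2 : w2C (sp 2 * b) (1 / 3) = 16 * w2C b (1 / 3) := by
    unfold w2C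
    rw [w3, hsg]
    ring
  rw [e, e2, d3, hd, hw2, hf2]
  field_simp
  ring

end Pool.Agent.DN
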