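import Pool.Agent.Lib.DN.B.Spec

/-!
# Theorem DN, Part B, module B7: homogeneity and complex conjugation
-/

set_option autoImplicit false

open scoped Pointwise Topology
open Filter

noncomputable section

namespace Pool.Agent.DN

open Pool.Agent.MuZ Pool.Agent.FW NumberField IsDedekindDomain
open Pool.Agent.DI (io ofC io_inj exists_io io_ofC ofC_io VP MP UP TP ex)
open Pool.Agent.DKB (inL wp wd zt kz KK IsRp IsHf)

private theorem B7_tend {c : ℂ} (hc : c ≠ 0) :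
    Tendsto (fun t : ℝ => t / ‖c‖ ^ 2) (𝓝[>] 0) (𝓝[>] 0) := by
  have hn : (0 : ℝ) < ‖c‖ := norm_pos_iff.2 hc
  have hp : (0 : ℝ) < ‖c‖ ^ 2 := pow_pos hn 2
  refine tendsto_nhdsWithin_of_tendsto_nhds_of_eventually_within _ ?_ ?_
  · have h1 : Tendsto (fun t : ℝ => t / ‖c‖ ^ 2) (𝓝 0) (𝓝 (0 / ‖c‖ ^ 2)) :=
      (continuous_id.div_const (‖c‖ ^ 2)).tendsto 0
    rw [zero_div] at h1
    exact h1.mono_left nhdsWithin_le_nhds
  · filter_upwards [self_mem_nhdsWithin] with t ht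
    exact div_pos ht hp

section

variable {n t : ℕ} [SqN n t]

private theorem B7_scl (h3 : K_Kz) {b : Ideal (OO n t)} (hb : b ≠ ⊥) {α : OO n t} (hα : α ≠ 0) :
    (∀ z : ℂ, wpC (sp α * b) z = toC α ^ 2 * wpC b (toC α * z) ∧
      wdC (sp α * b) z = toC α ^ 3 * wdC b (toC α * z) ∧
      KC (sp α * b) z = toC α * KC b (toC α * z)) ∧
    (LP (sp α * b)).g₂ = toC α ^ 4 * (LP b).g₂ ∧ (LP (sp α * b)).g₃ = toC α ^ 6 * (LP b).g₃ := by
  have hc : toC α ≠ 0 := toC_ne hα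
  have hab : sp α * b ≠ ⊥ := mul_ne_zero (a := sp α) (b := b) (sp_ne hα) hb
  obtain ⟨hw, hd, hK, hg, hg'⟩ := DKB.gScl.1 (LP b) (LP (sp α * b)) (toC α) hc (fun z => by
    rw [inL_LP hab, inL_LP hb]
    exact lam_sp)
  refine ⟨fun z => ⟨hw z, hd z, ?_⟩, hg, hg'⟩
  have hKC : ∀ (s : ℝ) (z : ℂ),
      KtC (sp α * b) s z = toC α * KtC b (s / ‖toC α‖ ^ 2) (toC α * z) := hK
  have e1 := (h3 n t (sp α * b) hab).1 z
  have e2 : Tendsto (fun s : ℝ => toC α * KtC b (s / ‖toC α‖ ^ 2) (toC α * z)) (𝓝[>] 0)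
      (𝓝 (toC α * KC b (toC α * z))) :=
    (((h3 n t b hb).1 (toC α * z)).comp (B7_tend hc)).const_mul (toC α)
  have e3 : (fun s : ℝ => KtC (sp α * b) s z) =
      fun s : ℝ => toC α * KtC b (s / ‖toC α‖ ^ 2) (toC α * z) := funext fun s => hKC s z
  rw [e3] at e1
  exact tendsto_nhds_unique e1 e2

private theorem B7_cj (h3 : K_Kz) {b : Ideal (OO n t)} (hb : b ≠ ⊥) :
    cjI b ≠ ⊥ ∧ (∀ z : ℂ, (starRingEnd ℂ) (wpC b z) = wpC (cjI b) ((starRingEnd ℂ) z) ∧
      (starRingEnd ℂ) (wdC b z) = wdC (cjI b) ((starRingEnd ℂ) z) ∧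
      (starRingEnd ℂ) (KC b z) = KC (cjI b) ((starRingEnd ℂ) z)) ∧
    (starRingEnd ℂ) (LP b).g₂ = (LP (cjI b)).g₂ ∧ (starRingEnd ℂ) (LP b).g₃ = (LP (cjI b)).g₃ := by
  have hcb : cjI b ≠ ⊥ := by
    intro h
    apply hb
    have h4 := ((aO3 n t).2.2.1 b).1
    rw [h] at h4
    rw [← h4]
    refine (Submodule.eq_bot_iff _).2 fun v hv => ?_
    have h5 := ((aO3 n t).1 ⊥ v).1 hv
    have h6 : cjO v = 0 := by simpa using h5
    rw [← cjO_cjO v, h6, cjO_zero]
  obtain ⟨hw, hd, hK, hg2, hg3⟩ := DKB.gScl.2.1 (LP b) (LP (cjI b)) (fun z => by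
    rw [inL_LP hcb, inL_LP hb]
    exact (aL2 n t).2.2.2.2.2.2.1 b z hb)
  have hwC : ∀ z, (starRingEnd ℂ) (wpC b z) = wpC (cjI b) ((starRingEnd ℂ) z) := by
    intro z
    have e := hw ((starRingEnd ℂ) z)
    rw [Complex.conj_conj] at e
    exact e.symm
  have hdC : ∀ z, (starRingEnd ℂ) (wdC b z) = wdC (cjI b) ((starRingEnd ℂ) z) := by
    intro z
    have e := hd ((starRingEnd ℂ) z)
    rw [Complex.conj_conj] at e
    exact e.symm
  have hKC : ∀ (s : ℝ) (z : ℂ),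
      (starRingEnd ℂ) (KtC b s z) = KtC (cjI b) s ((starRingEnd ℂ) z) := by
    intro s z
    have e := hK s ((starRingEnd ℂ) z)
    rw [Complex.conj_conj] at e
    exact e.symm
  refine ⟨hcb, fun z => ⟨hwC z, hdC z, ?_⟩, hg2.symm, hg3.symm⟩
  have e1 := (h3 n t (cjI b) hcb).1 ((starRingEnd ℂ) z)
  have e2 : Tendsto (fun s : ℝ => (starRingEnd ℂ) (KtC b s z)) (𝓝[>] 0)
      (𝓝 ((starRingEnd ℂ) (KC b z))) :=
    (Complex.continuous_conj.tendsto (KC b z)).comp ((h3 n t b hb).1 z)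
  have e3 : (fun s : ℝ => (starRingEnd ℂ) (KtC b s z)) =
      fun s : ℝ => KtC (cjI b) s ((starRingEnd ℂ) z) := funext fun s => hKC s z
  rw [e3] at e2
  exact tendsto_nhds_unique e2 e1

end

private theorem B7_A {c F A B w d : ℂ} (hc : c ≠ 0) (hF : F ≠ 0) (hd : d ≠ 0)
    (hA : A = w / (d * F)) (hB : B = d / F ^ 3) :
    c ^ 4 * w / (c ^ 3 * d * (c * F)) = A ∧ c ^ 3 * d / (c * F) ^ 3 = B := by
  rw [hA, hB]
  constructor
  · field_simp
  · field_simp

theorem sB7 (h1 : K_Cst) (h3 : K_Kz) : S_B7 := by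
  intro n t _ b hb
  obtain ⟨hcb, hcj, hg2, hg3⟩ := B7_cj h3 hb
  refine ⟨fun α hα => B7_scl h3 hb hα, hcj, fun h15 => ?_⟩
  obtain ⟨hF, hfr, hA3, -, hd, -⟩ := h1 n t b hb h15
  refine ⟨fun α hα h3' h5' => ?_, ?_⟩
  · obtain ⟨hs, hsg, -⟩ := B7_scl h3 hb hα
    have hc : toC α ≠ 0 := toC_ne hα
    have hab : sp α * b ≠ ⊥ := mul_ne_zero (a := sp α) (b := b) (sp_ne hα) hb
    have t5 : toC (5 : OO n t) = 5 := by
      have := toC_nat (n := n) (t := t) 5
      push_cast at this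
      exact this
    -- `α` is prime to `15`
    have c3 : Cop α 3 := by
      refine cop_congr (a := 1) ?_ (cop_one 3)
      rw [← neg_sub, dvd_neg]
      exact_mod_cast h3'
    have c5 : Cop α 5 := by
      rcases h5' with h | h
      · refine cop_congr (a := 1) ?_ (cop_one 5)
        rw [← neg_sub, dvd_neg]
        exact_mod_cast h
      · refine cop_congr (a := -1) ?_ (cop_neg (cop_one 5))
        rw [← neg_add', dvd_neg, add_comm]
        exact_mod_cast h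
    have c15 : Cop α 15 := by
      have h6 := IsCoprime.mul_right c3 c5
      unfold Cop
      norm_num at h6 ⊢
      exact h6
    have hp15 : PrI (sp α * b) 15 :=
      ((aO6 n t).1 15 (sp α) b).2 ⟨((aO6 n t).2.2.2.1 15 α (by norm_num)).2 c15, h15⟩
    obtain ⟨hF', hfr', -⟩ := h1 n t (sp α * b) hab hp15
    -- the marked points
    have e3 : toC α * (1 / 3) - 1 / 3 ∈ Lam b := by
      obtain ⟨γ, hγ⟩ := h3'
      have h4 := congrArg (toC (n := n) (t := t)) hγ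
      rw [toC_sub, toC_mul, toC_three, toC_one] at h4
      intro v _
      refine ⟨v * γ, ?_⟩
      rw [toC_mul]
      linear_combination toC v / 3 * h4
    have e5 : toC α * (1 / 5) - 1 / 5 ∈ Lam b ∨ toC α * (1 / 5) + 1 / 5 ∈ Lam b := by
      rcases h5' with ⟨γ, hγ⟩ | ⟨γ, hγ⟩
      · left
        have h4 := congrArg (toC (n := n) (t := t)) hγ
        rw [toC_sub, toC_mul, t5, toC_one] at h4
        intro v _
        refine ⟨v * γ, ?_⟩
        rw [toC_mul]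
        linear_combination toC v / 5 * h4
      · right
        have h4 := congrArg (toC (n := n) (t := t)) hγ
        rw [toC_add, toC_mul, t5, toC_one] at h4
        intro v _
        refine ⟨v * γ, ?_⟩
        rw [toC_mul]
        linear_combination toC v / 5 * h4
    have w3 : wpC (sp α * b) (1 / 3) = toC α ^ 2 * wpC b (1 / 3) := by
      rw [(hs _).1, wpC_congr hb e3]
    have w5 : wpC (sp α * b) (1 / 5) = toC α ^ 2 * wpC b (1 / 5) := by
      rw [(hs _).1, wpC_congr' hb e5]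
    have d3 : wdC (sp α * b) (1 / 3) = toC α ^ 3 * wdC b (1 / 3) := by
      rw [(hs _).2.1, wdC_congr hb e3]
    have hwne : wpC b (1 / 5) - wpC b (1 / 3) ≠ 0 := by
      intro h
      apply hF
      rw [hfr, h, div_zero]
    have hfrα : fr (sp α * b) = toC α * fr b := by
      rw [hfr', hfr, w3, w5, d3, ← mul_sub]
      field_simp
    have hd0 : wdC b (1 / 3) ≠ 0 := by
      rw [hd]
      exact mul_ne_zero (pow_ne_zero 3 hF) hA3
    have hw2 : w2C (sp α * b) (1 / 3) = toC α ^ 4 * w2C b (1 / 3) := by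
      unfold w2C
      rw [w3, hsg]
      ring
    obtain ⟨q1, q2⟩ := B7_A (c := toC α) (F := fr b) (A := A1 b) (B := A3 b) (w := w2C b (1 / 3))
      (d := wdC b (1 / 3)) hc hF hd0 rfl rfl
    refine ⟨hfrα, ?_, ?_, fun z => ⟨?_, ?_⟩⟩
    · rw [← q1, ← hw2, ← d3, ← hfrα]
      rfl
    · rw [← q2, ← d3, ← hfrα]
      rfl
    · unfold XC
      rw [w3, (hs z).1, hfrα, ← mul_sub, mul_pow]
      exact mul_div_mul_left _ _ (pow_ne_zero 2 hc)
    · unfold WC
      rw [(hs z).2.1, hfrα, mul_pow]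
      exact mul_div_mul_left _ _ (pow_ne_zero 3 hc)
  · have hp15 : PrI (cjI b) 15 := ((aO3 n t).2.2.2.2.1 b 15).2 h15
    obtain ⟨hF', hfr', -⟩ := h1 n t (cjI b) hcb hp15
    have r3 : (starRingEnd ℂ) (1 / 3 : ℂ) = 1 / 3 := by rw [map_div₀, map_one, map_ofNat]
    have r5 : (starRingEnd ℂ) (1 / 5 : ℂ) = 1 / 5 := by rw [map_div₀, map_one, map_ofNat]
    have w3 : (starRingEnd ℂ) (wpC b (1 / 3)) = wpC (cjI b) (1 / 3) := by
      rw [(hcj _).1, r3]
    have w5 : (starRingEnd ℂ) (wpC b (1 / 5)) = wpC (cjI b) (1 / 5) := by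
      rw [(hcj _).1, r5]
    have d3 : (starRingEnd ℂ) (wdC b (1 / 3)) = wdC (cjI b) (1 / 3) := by
      rw [(hcj _).2.1, r3]
    have hfc : (starRingEnd ℂ) (fr b) = fr (cjI b) := by
      rw [hfr, hfr', map_div₀, map_sub, w3, w5, d3]
    have hw2 : (starRingEnd ℂ) (w2C b (1 / 3)) = w2C (cjI b) (1 / 3) := by
      unfold w2C
      rw [map_sub, map_mul, map_pow, map_div₀, w3, hg2, map_ofNat, map_ofNat]
    refine ⟨hfc, ?_, ?_, fun z => ⟨?_, ?_⟩⟩
    · unfold A1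
      rw [map_div₀, map_mul, hw2, d3, hfc]
    · unfold A3 WC
      rw [map_div₀, map_pow, d3, hfc]
    · unfold XC
      rw [map_div₀, map_sub, map_pow, (hcj z).1, w3, hfc]
    · unfold WC
      rw [map_div₀, map_pow, (hcj z).2.1, hfc]

end Pool.Agent.DN
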