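import Pool.Agent.Lib.DN.B.Spec

/-!
# Theorem DN, Part B, module B8: the product formula
-/

set_option autoImplicit false

open scoped Pointwise Topology
open Filter

noncomputable section

namespace Pool.Agent.DN

open Pool.Agent.MuZ Pool.Agent.FW NumberField IsDedekindDomain
open Pool.Agent.DI (io ofC io_inj exists_io io_ofC ofC_io VP MP UP TP ex)
open Pool.Agent.DKB (inL wp wd zt kz KK IsRp IsHf)

theorem sB8 : S_B8 := by
  classical
  intro n t _ a b ha hb ha2 R hR T hT2 hT
  have hab : a * b ≠ ⊥ := mul_ne_zero ha hb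
  have hTa : T ∉ Lam (a * b) := by
    intro h
    exact hT ((aL5 n t a b 2 ha hb (by norm_num) ha2).1 T (by exact_mod_cast hT2) h)
  have hrp := hR.rp ha hb
  obtain ⟨c, hc0, hc⟩ := DKB.gPrA (LP b) (LP (a * b)) R hrp T ((notL_LP hab).2 hTa)
  have hcc := DKB.gPrB (LP b) (LP (a * b)) R hrp T c ((notL_LP hab).2 hTa) hc
  refine ⟨fun z hz => ?_, fun u hu hub hX => ?_⟩
  · have e := hc z ((notL_LP hab).2 hz)
    rw [hcc] at e
    rw [wpC_eq, wpC_eq, e]
    congr 1
    refine Finset.prod_congr rfl fun u _ => ?_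
    by_cases h : u ∈ Lam b
    · rw [if_pos ((inL_LP hb).2 h), if_pos h]
    · rw [if_neg ((notL_LP hb).2 h), if_neg h]
  · have hu' : u ∈ Lam (a * b) := hR.mem u hu
    rcases ((DKB.gInj (LP b)).1 u T ((notL_LP hb).2 hub) ((notL_LP hb).2 hT)).1 hX with h | h
    · have h5 : u - T ∈ Lam (a * b) := lam_mono ((inL_LP hb).1 h)
      exact hTa ((lam_sub_iff h5).1 hu')
    · have h5 : u + T ∈ Lam (a * b) := lam_mono ((inL_LP hb).1 h)
      exact hTa ((lam_add_left_iff hu').1 h5)

end Pool.Agent.DN
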