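import Pool.Agent.Lib.DN.B.Spec

/-!
# Theorem DN, Part B, module Cst: the constants
-/

set_option autoImplicit false

open scoped Pointwise Topology
open Filter

noncomputable section

namespace Pool.Agent.DN

open Pool.Agent.MuZ Pool.Agent.FW NumberField IsDedekindDomain
open Pool.Agent.DI (io ofC io_inj exists_io io_ofC ofC_io VP MP UP TP ex)
open Pool.Agent.DKB (inL wp wd zt kz KK IsRp IsHf)

private theorem Cst_alg {e d c F A B g2 g3 : ℂ} (hF : F ≠ 0) (hd : d ≠ 0) (hA : A = c / (d * F))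
    (hB : B = d / F ^ 3) (hc : c = 6 * e ^ 2 - g2 / 2) (h12 : 12 * e * d ^ 2 = c ^ 2)
    (hd2 : d ^ 2 = 4 * e ^ 3 - g2 * e - g3)
    (hD : ∀ x : ℂ, 4 * x ^ 3 - g2 * x - g3 = 0 → 12 * x ^ 2 - g2 ≠ 0) :
    B ≠ 0 ∧ A ^ 3 - 27 * B ≠ 0 ∧ d = F ^ 3 * B ∧ c = F ^ 4 * (A * B) ∧ e = F ^ 2 * A ^ 2 / 12 ∧
      g2 = F ^ 4 * (A ^ 4 - 24 * A * B) / 12 ∧
      g3 = F ^ 6 * (-(A ^ 6) + 36 * A ^ 3 * B - 216 * B ^ 2) / 216 := by
  have hB0 : B ≠ 0 := by
    rw [hB]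
    exact div_ne_zero hd (pow_ne_zero 3 hF)
  have h1 : d = F ^ 3 * B := by
    rw [hB]
    field_simp
  have h2 : c = F ^ 4 * (A * B) := by
    rw [hA, hB]
    field_simp
  have h3 : e = F ^ 2 * A ^ 2 / 12 := by
    apply mul_left_cancel₀ (pow_ne_zero 2 hd)
    rw [h2] at h12
    have h4 : d ^ 2 = F ^ 6 * B ^ 2 := by
      rw [h1]
      ring
    rw [h4] at h12 ⊢
    linear_combination h12 / 12
  have h4 : g2 = F ^ 4 * (A ^ 4 - 24 * A * B) / 12 := by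
    have e1 : g2 = 12 * e ^ 2 - 2 * c := by
      rw [hc]
      ring
    rw [e1, h2, h3]
    ring
  have h5 : g3 = F ^ 6 * (-(A ^ 6) + 36 * A ^ 3 * B - 216 * B ^ 2) / 216 := by
    have e1 : g3 = 4 * e ^ 3 - g2 * e - d ^ 2 := by
      rw [hd2]
      ring
    rw [e1, h4, h3, h1]
    ring
  refine ⟨hB0, ?_, h1, h2, h3, h4, h5⟩
  intro h0
  have hAB : A ^ 3 = 27 * B := by linear_combination h0
  have hA0 : A ≠ 0 := by
    rintro rfl
    apply hB0
    linear_combination -hAB / 27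
  -- `x = F² (A²/12 - 3 B/A)`, and `27 B = A³`: `3 B/A = A²/9`
  have hx := hD (F ^ 2 * (A ^ 2 / 12 - A ^ 2 / 9))
  have hBA : B = A ^ 3 / 27 := by linear_combination -hAB / 27
  apply hx
  · rw [h4, h5, hBA]
    ring
  · rw [h4, hBA]
    ring

theorem sCst (h1 : G_Dsc) (h2 : G_Flx) (h3 : K_Pt) : K_Cst := by
  intro n t _ b hb h15
  have p := h3 n t b hb h15
  have hS : ¬ inL (LP b) (1 / 3 : ℂ) := by
    rw [notL_LP hb]
    intro h
    have h4 := (p 5).1 (by push_cast; rwa [show (5 : ℂ) / 15 = 1 / 3 by norm_num])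
    omega
  have hS3 : inL (LP b) (3 * (1 / 3) : ℂ) := by
    rw [inL_LP hb]
    have h4 := (p 15).2 (dvd_refl _)
    push_cast at h4
    rwa [show (3 : ℂ) * (1 / 3) = 15 / 15 by norm_num]
  have hV : ¬ inL (LP b) (1 / 5 : ℂ) := by
    rw [notL_LP hb]
    intro h
    have h4 := (p 3).1 (by push_cast; rwa [show (3 : ℂ) / 15 = 1 / 5 by norm_num])
    omega
  have hne : wpC b (1 / 5) - wpC b (1 / 3) ≠ 0 := by
    refine sub_ne_zero.2 fun h => ?_
    rcases ((DKB.gInj (LP b)).1 _ _ hV hS).1 h with h5 | h5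
    · rw [inL_LP hb] at h5
      have h4 := (p (-2)).1 (by push_cast; rwa [show (-2 : ℂ) / 15 = 1 / 5 - 1 / 3 by norm_num])
      omega
    · rw [inL_LP hb] at h5
      have h4 := (p 8).1 (by push_cast; rwa [show (8 : ℂ) / 15 = 1 / 5 + 1 / 3 by norm_num])
      omega
  obtain ⟨f1, f2, -⟩ := h2 (LP b) (1 / 3) hS hS3
  have hd : wdC b (1 / 3) ≠ 0 := f1
  have hfr : fr b = wdC b (1 / 3) / (wpC b (1 / 5) - wpC b (1 / 3)) := by
    unfold fr
    rw [if_pos ⟨hb, h15⟩]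
  have hF : fr b ≠ 0 := by
    rw [hfr]
    exact div_ne_zero hd hne
  obtain ⟨c1, c2, c3, c4, c5, c6, c7⟩ := Cst_alg (e := wpC b (1 / 3)) (d := wdC b (1 / 3))
    (c := w2C b (1 / 3)) (F := fr b) (A := A1 b) (B := A3 b) (g2 := (LP b).g₂) (g3 := (LP b).g₃)
    hF hd rfl rfl rfl f2 (DKB.wd_sq hS) (h1 (LP b))
  refine ⟨hF, hfr, c1, c2, c3, c4, ?_, c5, c6, c7, fun z => ?_, fun z => ?_⟩
  · have h6 : fr b * (wpC b (1 / 5) - wpC b (1 / 3)) = wdC b (1 / 3) := by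
      rw [hfr]
      exact div_mul_cancel₀ _ hne
    rw [c3] at h6
    apply mul_left_cancel₀ hF
    linear_combination h6
  · unfold XC
    rw [mul_add, mul_div_cancel₀ _ (pow_ne_zero 2 hF), c5]
    ring
  · unfold WC
    rw [mul_div_cancel₀ _ (pow_ne_zero 3 hF)]

end Pool.Agent.DN
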