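import Pool.Agent.Lib.DN.B.Spec

/-!
# Theorem DN, Part B, module Flx: a point of order three (copy of DT/B/Flx)
-/

set_option autoImplicit false

open scoped Pointwise Topology
open Filter

noncomputable section

namespace Pool.Agent.DN

open Complex Filter Topology Pool.Agent.DKB

/-- The curve in the coordinate `p = ℘ - ℘(S)`. -/
private theorem Flx_sq {L : PeriodPair} {S z : ℂ} (hS : ¬ inL L S) (hz : ¬ inL L z) :
    wd L z ^ 2 = 4 * (wp L z - wp L S) ^ 3 + 12 * wp L S * (wp L z - wp L S) ^ 2 +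
      2 * (6 * wp L S ^ 2 - L.g₂ / 2) * (wp L z - wp L S) + wd L S ^ 2 := by
  rw [wd_sq hz, wd_sq hS]
  ring

/-- The double of a point which is not in `L`, for points of order three. -/
private theorem Flx_two {L : PeriodPair} {S : ℂ} (hS : ¬ inL L S) (h3 : inL L (3 * S)) :
    ¬ inL L (S + S) := by
  intro h
  apply hS
  have := inL_sub h3 h
  rwa [show 3 * S - (S + S) = S by ring] at this

private theorem Flx_wp2 {L : PeriodPair} {S : ℂ} (h3 : inL L (3 * S)) : wp L (S + S) = wp L S := by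
  rw [← wp_neg S]
  exact wp_congr (by rwa [show S + S - -S = 3 * S by ring])

private theorem Flx_ten {L : PeriodPair} {S : ℂ} (hS : ¬ inL L S) (h3 : inL L (3 * S)) :
    12 * wp L S * wd L S ^ 2 = (6 * wp L S ^ 2 - L.g₂ / 2) ^ 2 := by
  have h := (gAdd L).2.2.2 S (Flx_two hS h3)
  rw [Flx_wp2 h3] at h
  linear_combination h

private theorem Flx_dup {L : PeriodPair} {S z : ℂ} (hS : ¬ inL L S) (h3 : inL L (3 * S))
    (hz : ¬ inL L (2 * z)) : (wp L (2 * z) - wp L S) * wd L z ^ 2 =
      (wp L z - wp L S) ^ 4 - (6 * wp L S ^ 2 - L.g₂ / 2) * (wp L z - wp L S) ^ 2 -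
        2 * wd L S ^ 2 * (wp L z - wp L S) := by
  rw [two_mul] at hz ⊢
  have hz0 : ¬ inL L z := fun h => hz (inL_add h h)
  have h := (gAdd L).2.2.2 z hz
  have e1 := Flx_sq hS hz0
  have e2 := Flx_ten hS h3
  generalize wp L (z + z) = q at *
  generalize wp L z = x at *
  generalize wp L S = e at *
  generalize wd L z = y at *
  generalize wd L S = d at *
  generalize L.g₂ = g at *
  linear_combination h / 4 - (2 * (x - e) + 3 * e) * e1 - e2 / 4

private theorem Flx_main {L : PeriodPair} {S z : ℂ} (hS : ¬ inL L S) (h3 : inL L (3 * S))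
    (hz : ¬ inL L z) (hp : ¬ inL L (z + S)) (hm : ¬ inL L (z - S)) :
    wp L z - wp L S ≠ 0 ∧
    (wp L z - wp L S) * (wp L (z + S) - wp L S) * (wp L (z - S) - wp L S) = -wd L S ^ 2 ∧
    ((wp L (z + S) - wp L S) + (wp L (z - S) - wp L S)) * (wp L z - wp L S) ^ 2 =
      (6 * wp L S ^ 2 - L.g₂ / 2) * (wp L z - wp L S) + wd L S ^ 2 ∧
    wd L S * wd L z = (6 * wp L S ^ 2 - L.g₂ / 2) * (wp L z - wp L S) + wd L S ^ 2 -
      2 * (wp L z - wp L S) ^ 2 * (wp L (z + S) - wp L S) := by
  have hne : wp L z - wp L S ≠ 0 := by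
    intro h
    rcases ((gInj L).1 z S hz hS).1 (sub_eq_zero.1 h) with h | h
    · exact hm h
    · exact hp h
  have a1 := (gAdd L).1 z S hz hS hp
  have a2 := (gAdd L).2.1 z S hz hS hm
  have e1 := Flx_sq hS hz
  have e2 := Flx_ten hS h3
  generalize wp L (z + S) = q at *
  generalize wp L (z - S) = q' at *
  generalize wp L z = x at *
  generalize wp L S = e at *
  generalize wd L z = y at *
  generalize wd L S = d at *
  generalize L.g₂ = g at *
  have b1 : 2 * (q - e) * (x - e) ^ 2 = (6 * e ^ 2 - g / 2) * (x - e) + d ^ 2 - y * d := by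
    linear_combination a1 / 2 + e1 / 2
  have b2 : 2 * (q' - e) * (x - e) ^ 2 = (6 * e ^ 2 - g / 2) * (x - e) + d ^ 2 + y * d := by
    linear_combination a2 / 2 + e1 / 2
  refine ⟨hne, ?_, ?_, ?_⟩
  · have h4 : 4 * (x - e) ^ 3 ≠ 0 := mul_ne_zero (by norm_num) (pow_ne_zero 3 hne)
    apply mul_left_cancel₀ h4
    have e3 : 4 * (x - e) ^ 3 * ((x - e) * (q - e) * (q' - e)) =
        (2 * (q - e) * (x - e) ^ 2) * (2 * (q' - e) * (x - e) ^ 2) := by ring
    rw [e3, b1, b2]
    linear_combination -(d ^ 2) * e1 - (x - e) ^ 2 * e2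
  · linear_combination (b1 + b2) / 2
  · linear_combination b1

theorem tFlx : G_Flx := by
  intro L S hS h3
  refine ⟨?_, Flx_ten hS h3, fun z hz hp hm => Flx_main hS h3 hz hp hm,
    fun z hz => Flx_dup hS h3 hz, fun z hz hz3 hp hm => ?_⟩
  · intro h
    exact Flx_two hS h3 (((gInj L).2 S hS).1 h)
  · have hne := (Flx_main hS h3 hz hp hm).1
    have h2 : ¬ inL L (2 * z) := by
      rw [two_mul]
      exact Flx_two hz hz3
    have e0 := Flx_dup hS h3 h2
    have e1 := Flx_sq hS hz
    have e2 : wp L (2 * z) = wp L z := by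
      rw [two_mul]
      exact Flx_wp2 hz3
    rw [e2] at e0
    generalize wp L z = x at *
    generalize wp L S = e at *
    generalize wd L z = y at *
    generalize wd L S = d at *
    generalize L.g₂ = g at *
    have e3 : y ^ 2 = (x - e) ^ 3 - (6 * e ^ 2 - g / 2) * (x - e) - 2 * d ^ 2 := by
      apply mul_left_cancel₀ hne
      linear_combination e0
    linear_combination (e3 - e1) / 3

end Pool.Agent.DN
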