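import Pool.Agent.Lib.DN.B.Spec

/-!
# Theorem DN, Part B, module Kum: the formulas of the Kummer line
-/

set_option autoImplicit false

noncomputable section

namespace Pool.Agent.DN

open Complex Filter Topology Pool.Agent.DKB

private theorem Kum_alg {p q x y w v a b : ℂ} (hne : p ≠ q)
    (h1 : 4 * (x + p + q) * (p - q) ^ 2 = (w - v) ^ 2) (h2 : 4 * (y + p + q) * (p - q) ^ 2 = (w + v) ^ 2)
    (hw : w ^ 2 = 4 * p ^ 3 - a * p - b) (hv : v ^ 2 = 4 * q ^ 3 - a * q - b) :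
    (x + y) * (p - q) ^ 2 = (2 * p * q - a / 2) * (p + q) - b ∧
    x * y * (p - q) ^ 2 = (p * q + a / 4) ^ 2 + b * (p + q) ∧ (x - y) * (p - q) ^ 2 = -(w * v) := by
  have e1 : (x + y) * (p - q) ^ 2 = (2 * p * q - a / 2) * (p + q) - b := by
    linear_combination h1 / 4 + h2 / 4 + hw / 2 + hv / 2
  have e2 : (x - y) * (p - q) ^ 2 = -(w * v) := by linear_combination h1 / 4 - h2 / 4
  refine ⟨e1, ?_, e2⟩
  have hd : (p - q) ^ 2 ≠ 0 := pow_ne_zero 2 (sub_ne_zero.2 hne)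
  apply mul_left_cancel₀ (mul_ne_zero (by norm_num : (4 : ℂ) ≠ 0) hd)
  have e3 : ((x - y) * (p - q) ^ 2) ^ 2 = w ^ 2 * v ^ 2 := by
    rw [e2]
    ring
  rw [hw, hv] at e3
  linear_combination ((x + y) * (p - q) ^ 2 + ((2 * p * q - a / 2) * (p + q) - b)) * e1 - e3

theorem tKum : G_Kum := by
  intro L
  obtain ⟨a1, a2, -, a4⟩ := gAdd L
  refine ⟨fun z z' hz hz' h1 h2 => ?_, fun z hz => ?_⟩
  · have hne : wp L z ≠ wp L z' := by
      intro h
      rcases ((gInj L).1 z z' hz hz').1 h with h3 | h3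
      · exact h2 h3
      · exact h1 h3
    exact ⟨hne, Kum_alg hne (a1 z z' hz hz' h1) (a2 z z' hz hz' h2) (wd_sq hz) (wd_sq hz')⟩
  · have hz0 : ¬ inL L z := fun h => hz (inL_add h h)
    have h1 := a4 z hz
    have h2 := wd_sq hz0
    rw [h2] at h1 ⊢
    linear_combination h1 / 4

end Pool.Agent.DN
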