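import Pool.Agent.Lib.DN.B.Spec

/-!
# Theorem DN, Part B, module Kz: the function K
-/

set_option autoImplicit false

open scoped Pointwise Topology
open Filter

noncomputable section

namespace Pool.Agent.DN

open Pool.Agent.MuZ Pool.Agent.FW NumberField IsDedekindDomain
open Pool.Agent.DI (io ofC io_inj exists_io io_ofC ofC_io VP MP UP TP ex)
open Pool.Agent.DKB (inL wp wd zt kz KK IsRp IsHf)

theorem sKz (h1 : DKB.G_KS) (h2 : DKB.G_KB) : K_Kz := by
  intro n t _ b hb
  have hout : ∀ z : ℂ, z ∉ Lam b → Tendsto (fun s => KtC b s z) (𝓝[>] 0) (𝓝 (kz (LP b) z)) :=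
    fun z hz => (h2 (LP b)).1 z ((notL_LP hb).2 hz)
  have hin : ∀ z : ℂ, z ∈ Lam b → ∀ s : ℝ, KtC b s z = 0 := by
    intro z hz s
    have h3 := (h1 (LP b)).2.1 s 0 z ((inL_LP hb).2 hz)
    have h4 := (h1 (LP b)).2.2 s 0
    rw [zero_add] at h3
    rw [neg_zero] at h4
    have h5 : KK (LP b) s z = 0 := by
      rw [h3]
      have h6 : (2 : ℂ) * KK (LP b) s 0 = 0 := by linear_combination h4
      rcases mul_eq_zero.1 h6 with h7 | h7
      · norm_num at h7
      · exact h7
    exact h5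
  have hKout : ∀ z : ℂ, z ∉ Lam b → KC b z = kz (LP b) z := fun z hz => (hout z hz).limUnder_eq
  have hzero : ∀ z : ℂ, z ∈ Lam b → Tendsto (fun s => KtC b s z) (𝓝[>] (0 : ℝ)) (𝓝 0) := by
    intro z hz
    have h3 : (fun s => KtC b s z) = fun _ => (0 : ℂ) := funext fun s => hin z hz s
    rw [h3]
    exact tendsto_const_nhds
  have hKin : ∀ z : ℂ, z ∈ Lam b → KC b z = 0 := fun z hz => (hzero z hz).limUnder_eq
  refine ⟨fun z => ?_, hKout, hKin⟩
  by_cases hz : z ∈ Lam b
  · rw [hKin z hz]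
    exact hzero z hz
  · rw [hKout z hz]
    exact hout z hz

end Pool.Agent.DN
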