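import Pool.Agent.Lib.DN.B.Spec

/-!
# Theorem DN, Part B, module Pt: the points `j/15`
-/

set_option autoImplicit false

open scoped Pointwise Topology
open Filter

noncomputable section

namespace Pool.Agent.DN

open Pool.Agent.MuZ Pool.Agent.FW NumberField IsDedekindDomain

theorem sPt : K_Pt := by
  intro n t _ b hb h15 j
  have h := aL6.1 n t b 15 hb (by norm_num) h15 (j : OO n t)
  rw [toC_int] at h
  push_cast at h
  rw [h]
  constructor
  · intro h1
    have h2 := ((nat_dvd_iff 15 (j : OO n t)).1 (by exact_mod_cast h1)).1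
    rw [re_int] at h2
    exact_mod_cast h2
  · rintro ⟨m, rfl⟩
    exact ⟨(m : OO n t), by push_cast; ring⟩

end Pool.Agent.DN
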