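import Pool.Agent.Lib.DN.B.Spec

/-!
# Theorem DN, Part B, module Two: the points of order two
-/

set_option autoImplicit false

noncomputable section

namespace Pool.Agent.DN

open Complex Filter Topology Pool.Agent.DKB

private theorem Two_alg {x a e1 e2 e3 x1 x2 x3 p q g2 g3 : ℂ} (h0 : e1 + e2 + e3 = 0)
    (hg2 : g2 = 4 * (e1 ^ 2 + e1 * e2 + e2 ^ 2)) (hg3 : g3 = 4 * e1 * e2 * e3)
    (n1 : x ≠ e1) (n2 : x ≠ e2) (n3 : x ≠ e3)
    (h1 : (x1 - e1) * (x - e1) = (e2 - e1) * (e3 - e1)) (h2 : (x2 - e2) * (x - e2) = (e1 - e2) * (e3 - e2))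
    (h3 : (x3 - e3) * (x - e3) = (e1 - e3) * (e2 - e3))
    (hp : p * (4 * (x - e1) * (x - e2) * (x - e3)) = (x ^ 2 + g2 / 4) ^ 2 + 2 * g3 * x)
    (hq : q * (4 * (a - e1) * (a - e2) * (a - e3)) = (a ^ 2 + g2 / 4) ^ 2 + 2 * g3 * a) :
    (x - a) * (x1 - a) * (x2 - a) * (x3 - a) = -(4 * (a - e1) * (a - e2) * (a - e3)) * (p - q) := by
  have m1 : x - e1 ≠ 0 := sub_ne_zero.2 n1
  have m2 : x - e2 ≠ 0 := sub_ne_zero.2 n2
  have m3 : x - e3 ≠ 0 := sub_ne_zero.2 n3
  have hf : 4 * (x - e1) * (x - e2) * (x - e3) ≠ 0 :=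
    mul_ne_zero (mul_ne_zero (mul_ne_zero (by norm_num) m1) m2) m3
  apply mul_left_cancel₀ hf
  have k1 : (x1 - a) * (x - e1) = (e2 - e1) * (e3 - e1) + (e1 - a) * (x - e1) := by linear_combination h1
  have k2 : (x2 - a) * (x - e2) = (e1 - e2) * (e3 - e2) + (e2 - a) * (x - e2) := by linear_combination h2
  have k3 : (x3 - a) * (x - e3) = (e1 - e3) * (e2 - e3) + (e3 - a) * (x - e3) := by linear_combination h3
  have e4 : 4 * (x - e1) * (x - e2) * (x - e3) * ((x - a) * (x1 - a) * (x2 - a) * (x3 - a)) =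
      4 * (x - a) * ((x1 - a) * (x - e1)) * ((x2 - a) * (x - e2)) * ((x3 - a) * (x - e3)) := by ring
  have e5 : 4 * (x - e1) * (x - e2) * (x - e3) * (-(4 * (a - e1) * (a - e2) * (a - e3)) * (p - q)) =
      -(4 * (a - e1) * (a - e2) * (a - e3)) * (p * (4 * (x - e1) * (x - e2) * (x - e3))) +
        (4 * (x - e1) * (x - e2) * (x - e3)) * (q * (4 * (a - e1) * (a - e2) * (a - e3))) := by ring
  have h9 : e3 = -e1 - e2 := by linear_combination h0
  rw [e4, e5, hp, hq, k1, k2, k3, hg2, hg3, h9]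
  ring

theorem tTwo (hK : G_Kum) : G_Two := by
  intro L T T' hT2 hT hT2' hT' hTT
  have hTT' : ¬ inL L (T + T') := by
    intro h
    apply hTT
    have := inL_sub h hT2'
    rwa [show T + T' - (T' + T') = T - T' by ring] at this
  obtain ⟨d1, d2, d3, d4, d5, d6⟩ := (gDis L).2.1 T T' hT2 hT2' hT hT' hTT'
  have h33 : inL L (T + T' + (T + T')) := by
    have := inL_add hT2 hT2'
    rwa [show T + T + (T' + T') = T + T' + (T + T') by ring] at this
  set e1 := wp L T with he1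
  set e2 := wp L T' with he2
  set e3 := wp L (T + T') with he3
  have hsq : ∀ z : ℂ, ¬ inL L z → wd L z ^ 2 = 4 * (wp L z - e1) * (wp L z - e2) * (wp L z - e3) := by
    intro z hz
    rw [wd_sq hz, d5, d6]
    have h9 : e3 = -e1 - e2 := by linear_combination d4
    rw [h9]
    ring
  have h9 : e3 = -e1 - e2 := by linear_combination d4
  have t1 : ∀ z : ℂ, ¬ inL L z → ¬ inL L (z + T) →
      (wp L (z + T) - e1) * (wp L z - e1) = (e2 - e1) * (e3 - e1) := by
    intro z hz hz'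
    rw [(gMulB L T hT hT2 z hz hz').1, d5, h9]
    ring
  have t2 : ∀ z : ℂ, ¬ inL L z → ¬ inL L (z + T') →
      (wp L (z + T') - e2) * (wp L z - e2) = (e1 - e2) * (e3 - e2) := by
    intro z hz hz'
    rw [(gMulB L T' hT' hT2' z hz hz').1, d5, h9]
    ring
  have t3 : ∀ z : ℂ, ¬ inL L z → ¬ inL L (z + (T + T')) →
      (wp L (z + (T + T')) - e3) * (wp L z - e3) = (e1 - e3) * (e2 - e3) := by
    intro z hz hz'
    have h := (gMulB L (T + T') hTT' h33 z hz hz').1
    rw [← he3, d5] at h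
    rw [h, h9]
    ring
  refine ⟨d4, d1, hsq, t1, fun u z hu hz => ?_⟩
  have hu0 : ¬ inL L u := fun h => hu (inL_add h h)
  have hz0 : ¬ inL L z := fun h => hz (inL_add h h)
  have hn : ∀ y : ℂ, inL L (y + y) → ¬ inL L (z + y) := by
    intro y hy h
    apply hz
    have := inL_sub (inL_add h h) hy
    rwa [show z + y + (z + y) - (y + y) = z + z by ring] at this
  have hne : ∀ y : ℂ, ¬ inL L y → inL L (y + y) → wp L z ≠ wp L y := by
    intro y hy hy2 h
    rcases ((gInj L).1 z y hz0 hy).1 h with h3 | h3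
    · apply hz
      have := inL_add (inL_add h3 h3) hy2
      rwa [show z - y + (z - y) + (y + y) = z + z by ring] at this
    · exact hn y hy2 h3
  have hp := (hK L).2 z hz
  have hq := (hK L).2 u hu
  rw [hsq z hz0] at hp
  rw [hsq u hu0] at hq
  rw [hsq u hu0]
  exact Two_alg d4 d5 d6 (hne T hT hT2) (hne T' hT' hT2') (hne _ hTT' h33) (t1 z hz0 (hn T hT2))
    (t2 z hz0 (hn T' hT2')) (t3 z hz0 (hn _ h33)) hp hq

end Pool.Agent.DN
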