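import Pool.Agent.Lib.DN.B.B1
import Pool.Agent.Lib.DN.B.B2
import Pool.Agent.Lib.DN.B.B3
import Pool.Agent.Lib.DN.B.B4
import Pool.Agent.Lib.DN.B.B5
import Pool.Agent.Lib.DN.B.B7
import Pool.Agent.Lib.DN.B.B8
import Pool.Agent.Lib.DN.B.B9
import Pool.Agent.Lib.DN.B.B10
import Pool.Agent.Lib.DN.B.B11
import Pool.Agent.Lib.DN.B.B13
import Pool.Agent.Lib.DN.B.B14
import Pool.Agent.Lib.DN.B.B16
import Pool.Agent.Lib.DN.B.Cst
import Pool.Agent.Lib.DN.B.Dsc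
import Pool.Agent.Lib.DN.B.Flx
import Pool.Agent.Lib.DN.B.Kum
import Pool.Agent.Lib.DN.B.Kz
import Pool.Agent.Lib.DN.B.Pt
import Pool.Agent.Lib.DN.B.Two

/-!
# Theorem DN, part B: assembly (complete)

`aB1`, ..., `aB16`, without hypotheses, for all imaginary quadratic fields.
-/

set_option autoImplicit false

noncomputable section

namespace Pool.Agent.DN

theorem aPt : K_Pt := sPt
theorem aCst : K_Cst := sCst tDsc tFlx aPt
theorem aKz : K_Kz := sKz DKB.gKS DKB.gKB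
theorem aTwo : G_Two := tTwo tKum
theorem aB1 : S_B1 := sB1 aCst
theorem aB2 : S_B2 := sB2 aCst
theorem aB3 : S_B3 := sB3 aCst tKum
theorem aB4 : S_B4 := sB4 aTwo
theorem aB7 : S_B7 := sB7 aCst aKz
theorem aB5 : S_B5 := sB5 aCst aPt aB7
theorem aB8 : S_B8 := sB8
theorem aB9 : S_B9 := sB9 aKz
theorem aB10 : S_B10 := sB10 aKz
theorem aB13 : S_B13 := sB13 aCst aPt
theorem aB14 : S_B14 := sB14
theorem aB11 : S_B11 := sB11 aCst aB9 aB10 aB14
theorem aB15 : S_B15 := sB15 aTwo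
theorem aB16 : S_B16 := sB16 aB14

end Pool.Agent.DN
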