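import Pool.Agent.Lib.DN.B.Spec

/-!
# Theorem DN, Part B, module B1: basic properties
-/

set_option autoImplicit false

open scoped Pointwise Topology
open Filter

noncomputable section

namespace Pool.Agent.DN

open Pool.Agent.MuZ Pool.Agent.FW NumberField IsDedekindDomain
open Pool.Agent.DI (io ofC io_inj exists_io io_ofC ofC_io VP MP UP TP ex)
open Pool.Agent.DKB (inL wp wd zt kz KK IsRp IsHf)

theorem sB1 (h1 : K_Cst) : S_B1 := by
  intro n t _ b hb
  obtain ⟨hinj, hzero⟩ := DKB.gInj (LP b)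
  have hn : ∀ z : ℂ, z ∉ Lam b → ¬ inL (LP b) z := fun z hz => (notL_LP hb).2 hz
  refine ⟨fun z l hl => ⟨wpC_add hb z hl, wdC_add hb z hl⟩, fun z => ⟨wpC_neg b z, wdC_neg b z⟩,
    fun z hz => ⟨wpC_lat hb hz, wdC_lat hb hz⟩, fun z z' hz hz' => ?_, fun z hz => ?_, fun h15 => ?_⟩
  · have h := hinj z z' (hn z hz) (hn z' hz')
    rwa [inL_LP hb, inL_LP hb, ← wpC_eq] at h
  · have h := hzero z (hn z hz)
    rwa [inL_LP hb, ← wdC_eq, ← two_mul] at h
  · obtain ⟨c1, -, c3, c4, c5, -, c7, c8, c9, c10, -, -⟩ := h1 n t b hb h15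
    refine ⟨c1, c3, c4, c8, ?_, ?_, rfl, c9, c10⟩
    · unfold XC
      rw [sub_self, zero_div]
    · unfold XC
      rw [c7, add_sub_cancel_left, mul_div_cancel_left₀ _ (pow_ne_zero 2 c1)]

end Pool.Agent.DN
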