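import Pool.Agent.Lib.DN.B.Spec

/-! # Theorem DN, Part B, module Dsc: the discriminant is not zero (copy of DT/B/Dsc) -/

set_option autoImplicit false

open scoped Pointwise Topology
open Filter

noncomputable section

namespace Pool.Agent.DN

open Complex Filter Topology Pool.Agent.DKB

theorem tDsc : G_Dsc := by
  intro L x hx h12
  have hS2 : inL L (L.ω₁ / 2 + L.ω₁ / 2) := by
    rw [add_halves]
    exact inL_o1
  have hT2 : inL L (L.ω₂ / 2 + L.ω₂ / 2) := by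
    rw [add_halves]
    exact inL_o2
  have hST : ¬ inL L (L.ω₁ / 2 + L.ω₂ / 2) := by
    intro h
    have h3 : (((1 / 2 : ℚ)) : ℂ) * L.ω₁ + (((1 / 2 : ℚ)) : ℂ) * L.ω₂ ∈ L.lattice := by
      have e : (((1 / 2 : ℚ)) : ℂ) * L.ω₁ + (((1 / 2 : ℚ)) : ℂ) * L.ω₂ =
          L.ω₁ / 2 + L.ω₂ / 2 := by
        push_cast
        ring
      rw [e]
      exact h
    have h4 := (PeriodPair.mul_ω₁_add_mul_ω₂_mem_lattice).1 h3
    norm_num at h4
  have hST2 : inL L ((L.ω₁ / 2 + L.ω₂ / 2) + (L.ω₁ / 2 + L.ω₂ / 2)) := by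
    have := inL_add hS2 hT2
    have e : L.ω₁ / 2 + L.ω₁ / 2 + (L.ω₂ / 2 + L.ω₂ / 2) =
      L.ω₁ / 2 + L.ω₂ / 2 + (L.ω₁ / 2 + L.ω₂ / 2) := by ring
    rwa [e] at this
  obtain ⟨d1, d2, -⟩ := gDis L
  obtain ⟨-, -, -, e4, g2, g3⟩ := d2 _ _ hS2 hT2 notL_h1 notL_h2 hST
  have k1 := d1 _ notL_h1 hS2
  have k2 := d1 _ notL_h2 hT2
  have k3 := d1 _ hST hST2
  generalize wp L (L.ω₁ / 2) = a at e4 g2 g3 k1
  generalize wp L (L.ω₂ / 2) = b at e4 g2 g3 k2
  generalize wp L (L.ω₁ / 2 + L.ω₂ / 2) = c at e4 g2 g3 k3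
  have hp : (x - a) * ((x - b) * (x - c)) = 0 := by
    linear_combination (1 / 4 : ℂ) * hx + (x / 4) * g2 + (1 / 4 : ℂ) * g3 +
      (-x ^ 2 + a * x + b * x) * e4
  rcases mul_eq_zero.1 hp with h | h
  · apply k1
    rw [← sub_eq_zero.1 h]
    linear_combination (1 / 4 : ℂ) * h12
  · rcases mul_eq_zero.1 h with h | h
    · apply k2
      rw [← sub_eq_zero.1 h]
      linear_combination (1 / 4 : ℂ) * h12
    · apply k3
      rw [← sub_eq_zero.1 h]
      linear_combination (1 / 4 : ℂ) * h12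

end Pool.Agent.DN
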