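import Pool.Agent.Lib.DK.B.AllG
import Pool.Agent.Lib.DN.O.All

/-!
# Theorem DN, Part B: the lattices `Lam b` (complete; no task)

The dictionary between `DN/Defs.lean` and the general functions of `DK/B/Basic.lean` for `L = LP b`. Port of
`DK/B/Lat.lean`.
-/

set_option autoImplicit false

open scoped Pointwise Topology
open Filter

noncomputable section

namespace Pool.Agent.DN

open Pool.Agent.MuZ Pool.Agent.FW NumberField IsDedekindDomain
open Pool.Agent.DI (io ofC io_inj exists_io io_ofC ofC_io VP MP UP TP ex)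
open Pool.Agent.DKB (inL wp wd zt kz KK IsRp IsHf)

variable {n t : ℕ} [SqN n t]

theorem inL_LP {b : Ideal (OO n t)} (hb : b ≠ ⊥) {z : ℂ} : inL (LP b) z ↔ z ∈ Lam b := by
  have h := aL1 n t b hb
  unfold inL
  rw [← h]
  exact Iff.rfl

theorem notL_LP {b : Ideal (OO n t)} (hb : b ≠ ⊥) {z : ℂ} : ¬ inL (LP b) z ↔ z ∉ Lam b :=
  not_congr (inL_LP hb)

omit [SqN n t] in
theorem wpC_eq (b : Ideal (OO n t)) : wpC b = wp (LP b) := rfl

omit [SqN n t] in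
theorem wdC_eq (b : Ideal (OO n t)) : wdC b = wd (LP b) := rfl

omit [SqN n t] in
theorem KtC_eq (b : Ideal (OO n t)) : KtC b = KK (LP b) := rfl

theorem IsSys.rp {a b : Ideal (OO n t)} (ha : a ≠ ⊥) (hb : b ≠ ⊥) {R : Finset ℂ} (h : IsSys a b R) :
    IsRp (LP b) (LP (a * b)) R := by
  have hab : a * b ≠ ⊥ := mul_ne_zero ha hb
  refine ⟨fun z hz => ?_, fun u hu => ?_, fun z hz => ?_, fun u hu u' hu' h1 => ?_⟩
  · rw [inL_LP hab]
    exact lam_mono ((inL_LP hb).1 hz)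
  · rw [inL_LP hab]
    exact h.mem u hu
  · obtain ⟨u, hu, h1⟩ := h.ex z ((inL_LP hab).1 hz)
    exact ⟨u, hu, (inL_LP hb).2 h1⟩
  · exact h.uni u hu u' hu' ((inL_LP hb).1 h1)

theorem IsHalf.hf {m b : Ideal (OO n t)} (hm : m ≠ ⊥) (hb : b ≠ ⊥) {S : Finset ℂ} (h : IsHalf m b S) :
    IsHf (LP b) (LP (m * b)) S := by
  have hmb : m * b ≠ ⊥ := mul_ne_zero hm hb
  refine ⟨fun u hu => ?_, fun z hz hz' => ?_, fun u hu u' hu' h1 => ?_⟩
  · rw [inL_LP hmb, inL_LP hb]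
    exact h.mem u hu
  · rw [inL_LP hmb] at hz
    rw [inL_LP hb] at hz'
    obtain ⟨u, hu, h1⟩ := h.ex z hz hz'
    exact ⟨u, hu, by rw [inL_LP hb, inL_LP hb]; exact h1⟩
  · rw [inL_LP hb, inL_LP hb] at h1
    exact h.uni u hu u' hu' h1

theorem wpC_add {b : Ideal (OO n t)} (hb : b ≠ ⊥) (z : ℂ) {l : ℂ} (hl : l ∈ Lam b) :
    wpC b (z + l) = wpC b z := DKB.wp_add z ((inL_LP hb).2 hl)

theorem wdC_add {b : Ideal (OO n t)} (hb : b ≠ ⊥) (z : ℂ) {l : ℂ} (hl : l ∈ Lam b) :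
    wdC b (z + l) = wdC b z := DKB.wd_add z ((inL_LP hb).2 hl)

theorem wpC_congr {b : Ideal (OO n t)} (hb : b ≠ ⊥) {z u : ℂ} (h : z - u ∈ Lam b) : wpC b z = wpC b u :=
  DKB.wp_congr ((inL_LP hb).2 h)

theorem wdC_congr {b : Ideal (OO n t)} (hb : b ≠ ⊥) {z u : ℂ} (h : z - u ∈ Lam b) : wdC b z = wdC b u :=
  DKB.wd_congr ((inL_LP hb).2 h)

theorem XC_congr {b : Ideal (OO n t)} (hb : b ≠ ⊥) {z u : ℂ} (h : z - u ∈ Lam b) : XC b z = XC b u := by
  unfold XC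
  rw [wpC_congr hb h]

omit [SqN n t] in
theorem wpC_neg (b : Ideal (OO n t)) (z : ℂ) : wpC b (-z) = wpC b z := DKB.wp_neg z

omit [SqN n t] in
theorem wdC_neg (b : Ideal (OO n t)) (z : ℂ) : wdC b (-z) = -wdC b z := DKB.wd_neg z

omit [SqN n t] in
theorem XC_neg (b : Ideal (OO n t)) (z : ℂ) : XC b (-z) = XC b z := by
  unfold XC
  rw [wpC_neg]

/-- `℘` at points which are congruent up to sign. -/
theorem wpC_congr' {b : Ideal (OO n t)} (hb : b ≠ ⊥) {z u : ℂ} (h : z - u ∈ Lam b ∨ z + u ∈ Lam b) :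
    wpC b z = wpC b u := by
  rcases h with h | h
  · exact wpC_congr hb h
  · rw [← wpC_neg b u]
    exact wpC_congr hb (by rwa [sub_neg_eq_add])

/-- `X` at points which are congruent up to sign. -/
theorem XC_congr' {b : Ideal (OO n t)} (hb : b ≠ ⊥) {z u : ℂ} (h : z - u ∈ Lam b ∨ z + u ∈ Lam b) :
    XC b z = XC b u := by
  unfold XC
  rw [wpC_congr' hb h]

/-- `℘'²` at points which are congruent up to sign. -/
theorem wdC_congr' {b : Ideal (OO n t)} (hb : b ≠ ⊥) {z u : ℂ} (h : z - u ∈ Lam b ∨ z + u ∈ Lam b) :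
    wdC b z ^ 2 = wdC b u ^ 2 := by
  rcases h with h | h
  · rw [wdC_congr hb h]
  · rw [← neg_sq (wdC b u), ← wdC_neg b u]
    rw [wdC_congr hb (u := -u) (by rwa [sub_neg_eq_add])]

theorem wpC_lat {b : Ideal (OO n t)} (hb : b ≠ ⊥) {z : ℂ} (h : z ∈ Lam b) : wpC b z = 0 :=
  DKB.wp_lat ((inL_LP hb).2 h)

theorem wdC_lat {b : Ideal (OO n t)} (hb : b ≠ ⊥) {z : ℂ} (h : z ∈ Lam b) : wdC b z = 0 :=
  DKB.wd_lat ((inL_LP hb).2 h)

omit [SqN n t] in
theorem sp_ne {v : OO n t} (h : v ≠ 0) : sp v ≠ ⊥ := by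
  intro h1
  exact h (Ideal.span_singleton_eq_bot.1 h1)

theorem WC_congr {b : Ideal (OO n t)} (hb : b ≠ ⊥) {z u : ℂ} (h : z - u ∈ Lam b) : WC b z = WC b u := by
  unfold WC
  rw [wdC_congr hb h]

omit [SqN n t] in
theorem WC_neg (b : Ideal (OO n t)) (z : ℂ) : WC b (-z) = -WC b z := by
  unfold WC
  rw [wdC_neg, neg_div]

end Pool.Agent.DN
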