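import Pool.Agent.Lib.DN.B.Lat

/-!
# Theorem DN, Part B (elliptic functions, all imaginary quadratic fields): statements of the modules

The module `X` is the file `Pool/Agent/Lib/DN/B/X.lean`. The targets `S_B1` - `S_B16` are in `DN/Iface.lean`.
Everything is proved; assembly: `DN/B/All.lean`.
-/

set_option autoImplicit false

open scoped Pointwise Topology
open Filter

noncomputable section

namespace Pool.Agent.DN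

open Pool.Agent.MuZ Pool.Agent.FW NumberField IsDedekindDomain
open Pool.Agent.DI (io ofC io_inj exists_io io_ofC ofC_io VP MP UP TP ex)
open Pool.Agent.DKB (inL wp wd zt kz KK IsRp IsHf)

/-! ## 1. Arbitrary lattices -/

/-- The discriminant is not zero (copy of `DT/B/Dsc`). -/
def G_Dsc : Prop := ∀ (L : PeriodPair) (x : ℂ), 4 * x ^ 3 - L.g₂ * x - L.g₃ = 0 → 12 * x ^ 2 - L.g₂ ≠ 0

/-- A point `S` of order three (copy of `DT/B/Flx`). -/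
def G_Flx : Prop := ∀ (L : PeriodPair) (S : ℂ), ¬ inL L S → inL L (3 * S) →
  wd L S ≠ 0 ∧ 12 * wp L S * wd L S ^ 2 = (6 * wp L S ^ 2 - L.g₂ / 2) ^ 2 ∧
  (∀ z : ℂ, ¬ inL L z → ¬ inL L (z + S) → ¬ inL L (z - S) →
    wp L z - wp L S ≠ 0 ∧
    (wp L z - wp L S) * (wp L (z + S) - wp L S) * (wp L (z - S) - wp L S) = -wd L S ^ 2 ∧
    ((wp L (z + S) - wp L S) + (wp L (z - S) - wp L S)) * (wp L z - wp L S) ^ 2 =
      (6 * wp L S ^ 2 - L.g₂ / 2) * (wp L z - wp L S) + wd L S ^ 2 ∧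
    wd L S * wd L z = (6 * wp L S ^ 2 - L.g₂ / 2) * (wp L z - wp L S) + wd L S ^ 2 -
      2 * (wp L z - wp L S) ^ 2 * (wp L (z + S) - wp L S)) ∧
  (∀ z : ℂ, ¬ inL L (2 * z) → (wp L (2 * z) - wp L S) * wd L z ^ 2 =
    (wp L z - wp L S) ^ 4 - (6 * wp L S ^ 2 - L.g₂ / 2) * (wp L z - wp L S) ^ 2 -
      2 * wd L S ^ 2 * (wp L z - wp L S)) ∧
  ∀ z : ℂ, ¬ inL L z → inL L (3 * z) → ¬ inL L (z + S) → ¬ inL L (z - S) →
    (wp L z - wp L S) ^ 3 + 4 * wp L S * (wp L z - wp L S) ^ 2 +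
      (6 * wp L S ^ 2 - L.g₂ / 2) * (wp L z - wp L S) + wd L S ^ 2 = 0

/-- The formulas of the Kummer line. -/
def G_Kum : Prop := ∀ L : PeriodPair,
  (∀ z z' : ℂ, ¬ inL L z → ¬ inL L z' → ¬ inL L (z + z') → ¬ inL L (z - z') →
    wp L z ≠ wp L z' ∧
    (wp L (z + z') + wp L (z - z')) * (wp L z - wp L z') ^ 2 =
      (2 * wp L z * wp L z' - L.g₂ / 2) * (wp L z + wp L z') - L.g₃ ∧
    wp L (z + z') * wp L (z - z') * (wp L z - wp L z') ^ 2 =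
      (wp L z * wp L z' + L.g₂ / 4) ^ 2 + L.g₃ * (wp L z + wp L z') ∧
    (wp L (z + z') - wp L (z - z')) * (wp L z - wp L z') ^ 2 = -(wd L z * wd L z')) ∧
  ∀ z : ℂ, ¬ inL L (z + z) →
    wp L (z + z) * wd L z ^ 2 = (wp L z ^ 2 + L.g₂ / 4) ^ 2 + 2 * L.g₃ * wp L z

/-- The points of order two. -/
def G_Two : Prop := ∀ (L : PeriodPair) (T T' : ℂ), inL L (T + T) → ¬ inL L T → inL L (T' + T') →
  ¬ inL L T' → ¬ inL L (T - T') →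
  wp L T + wp L T' + wp L (T + T') = 0 ∧ wp L T ≠ wp L T' ∧
  (∀ z : ℂ, ¬ inL L z → wd L z ^ 2 = 4 * (wp L z - wp L T) * (wp L z - wp L T') * (wp L z - wp L (T + T'))) ∧
  (∀ z : ℂ, ¬ inL L z → ¬ inL L (z + T) →
    (wp L (z + T) - wp L T) * (wp L z - wp L T) = (wp L T' - wp L T) * (wp L (T + T') - wp L T)) ∧
  ∀ u z : ℂ, ¬ inL L (u + u) → ¬ inL L (z + z) →
    (wp L z - wp L u) * (wp L (z + T) - wp L u) * (wp L (z + T') - wp L u) * (wp L (z + (T + T')) - wp L u) =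
      -(wd L u ^ 2) * (wp L (z + z) - wp L (u + u))

/-! ## 2. The lattices `Lam b` -/

/-- The points `j/15`. -/
def K_Pt : Prop := ∀ (n t : ℕ) [SqN n t] (b : Ideal (OO n t)), b ≠ ⊥ → PrI b 15 → ∀ j : ℤ,
  (j : ℂ) / 15 ∈ Lam b ↔ (15 : ℤ) ∣ j

/-- The constants. -/
def K_Cst : Prop := ∀ (n t : ℕ) [SqN n t] (b : Ideal (OO n t)), b ≠ ⊥ → PrI b 15 →
  fr b ≠ 0 ∧ fr b = wdC b (1 / 3) / (wpC b (1 / 5) - wpC b (1 / 3)) ∧ A3 b ≠ 0 ∧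
  A1 b ^ 3 - 27 * A3 b ≠ 0 ∧ wdC b (1 / 3) = fr b ^ 3 * A3 b ∧ w2C b (1 / 3) = fr b ^ 4 * (A1 b * A3 b) ∧
  wpC b (1 / 5) = wpC b (1 / 3) + fr b ^ 2 * A3 b ∧ wpC b (1 / 3) = fr b ^ 2 * A1 b ^ 2 / 12 ∧
  (LP b).g₂ = fr b ^ 4 * (A1 b ^ 4 - 24 * A1 b * A3 b) / 12 ∧
  (LP b).g₃ = fr b ^ 6 * (-(A1 b ^ 6) + 36 * A1 b ^ 3 * A3 b - 216 * A3 b ^ 2) / 216 ∧
  (∀ z : ℂ, wpC b z = fr b ^ 2 * (XC b z + A1 b ^ 2 / 12)) ∧ ∀ z : ℂ, wdC b z = fr b ^ 3 * WC b z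

/-- The function `K`. -/
def K_Kz : Prop := ∀ (n t : ℕ) [SqN n t] (b : Ideal (OO n t)), b ≠ ⊥ →
  (∀ z : ℂ, Tendsto (fun s => KtC b s z) (𝓝[>] 0) (𝓝 (KC b z))) ∧
  (∀ z : ℂ, z ∉ Lam b → KC b z = kz (LP b) z) ∧ ∀ z : ℂ, z ∈ Lam b → KC b z = 0

end Pool.Agent.DN
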